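import Pool.Agent.Results.MP_4b35b9_lc.NoSelfModulus

set_option autoImplicit false

/-! Problem MP_2f7dfd_lc, question Q1, answered positively: there is a real `X` such that every real
Turing reducible to `X` is NCR and `X` is not Turing reducible to any c.e. set. -/

namespace Pool.Agent.Results.MP_2f7dfd_lc.NotBelowCE

open MeasureTheory

/-- The characteristic function of a real, as a partial function. -/
def ch (X : ℕ → Bool) : ℕ →. ℕ := fun n => Part.some (X n).toNat

/-- The real `Y` is Turing reducible to the real `X`. -/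
def Below (Y X : ℕ → Bool) : Prop := TuringReducible (ch Y) (ch X)

/-- The basic cylinder of a string. -/
def Cyl (σ : List Bool) : Set (ℕ → Bool) := {Z | ∀ (i : ℕ) (h : i < σ.length), Z i = σ[i]}

/-- The real `R` represents `μ`: it computes, uniformly in the string `σ` and in `j`, a dyadic
rational `g(σ, j) / 2 ^ j` at distance at most `2 ^ (-j)` from `μ [σ]`. -/
def Represents (R : ℕ → Bool) (μ : Measure (ℕ → Bool)) : Prop :=
  ∃ g : ℕ → ℕ, TuringReducible (fun n => Part.some (g n) : ℕ →. ℕ) (ch R) ∧
    ∀ (σ : List Bool) (j : ℕ),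
      |(g (Nat.pair (Encodable.encode σ) j) : ℝ) / 2 ^ j - μ.real (Cyl σ)| ≤ 1 / 2 ^ j

/-- The sets `U n` are a Martin-Löf `μ`-test relative to `R`: they are the unions of the cylinders
given by sets of strings that are uniformly computably enumerable in `R`, and
`μ (U n) ≤ 2 ^ (-n)`. -/
def IsTest (R : ℕ → Bool) (μ : Measure (ℕ → Bool)) (U : ℕ → Set (ℕ → Bool)) : Prop :=
  (∃ W : ℕ →. ℕ, TuringReducible W (ch R) ∧ ∀ n : ℕ, U n =
    {Z | ∃ σ : List Bool, (W (Nat.pair n (Encodable.encode σ))).Dom ∧ Z ∈ Cyl σ}) ∧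
  ∀ n : ℕ, μ.real (U n) ≤ (1 / 2) ^ n

/-- `X` is `μ`-random: it passes all Martin-Löf `μ`-tests relative to some representation
of `μ`. -/
def Random (μ : Measure (ℕ → Bool)) (X : ℕ → Bool) : Prop :=
  ∃ R : ℕ → Bool, Represents R μ ∧ ∀ U : ℕ → Set (ℕ → Bool), IsTest R μ U → ∃ n, X ∉ U n

/-- `X` is not random for any continuous probability measure on Cantor space (with its product
σ-algebra, which is the Borel σ-algebra). -/
def NCR (X : ℕ → Bool) : Prop :=
  ∀ μ : Measure (ℕ → Bool), IsProbabilityMeasure μ → (∀ Z : ℕ → Bool, μ {Z} = 0) → ¬ Random μ X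

/-- There is a real `X` such that every real `Y ≤_T X` is NCR (in particular the Turing degree of
`X` is completely NCR) and `X` is not Turing reducible to any computably enumerable set (in
particular its degree is not below any incomplete r.e. degree). -/
theorem result : ∃ X : ℕ → Bool, (∀ Y : ℕ → Bool, Below Y X → NCR Y) ∧
    ∀ A : ℕ → Bool, REPred (fun n => A n = true) → ¬ Below X A := by
  obtain ⟨X, h⟩ := Pool.Agent.TH738.NR.exists_good
  refine ⟨X, fun Y hY => ?_, fun A hA hXA => ?_⟩
  · exact Pool.Agent.Results.MP_4b35b9_lc.NoSelfModulus.ncr h hY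
  · exact h.not_below hA (Pool.Agent.Results.MP_4b35b9_lc.NoSelfModulus.below_iff.1 hXA)

end Pool.Agent.Results.MP_2f7dfd_lc.NotBelowCE
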